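import Pool.Agent.Helper96.OP.Defs

/-!
# Module N2 of MP_2214fc_al: lower bound of the height, automorphisms of minimal height,
Nielsen's theorem (from `nielsen_min`, given as a hypothesis here)
-/

set_option autoImplicit false

namespace Pool.Agent.Helper51.OP

open Pool.Agent.Helper96.OP

variable {ι : Type} [DecidableEq ι]

lemma one_le_norm (α : MulAut (FreeGroup ι)) (i : ι) : 1 ≤ (α (FreeGroup.of i)).norm := by
  rw [Nat.one_le_iff_ne_zero, Ne, FreeGroup.norm_eq_zero]
  intro h
  have h2 : FreeGroup.of i = 1 := by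
    apply α.injective
    rw [h, map_one]
  exact FreeGroup.of_ne_one i h2

theorem card_le_hgt [Fintype ι] (α : MulAut (FreeGroup ι)) :
    Fintype.card ι ≤ hgt (fun i => α (FreeGroup.of i)) := by
  unfold hgt
  calc Fintype.card ι = ∑ _i : ι, 1 := by simp
    _ ≤ ∑ i, (α (FreeGroup.of i)).norm := Finset.sum_le_sum fun i _ => one_le_norm α i

lemma el_injective : Function.Injective (el : Ltr ι → FreeGroup ι) := by
  intro x y h
  have h1 : (el x).toWord = [x] := by
    rw [el, FreeGroup.toWord_mk]
    simp [FreeGroup.reduce]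
  have h2 : (el y).toWord = [y] := by
    rw [el, FreeGroup.toWord_mk]
    simp [FreeGroup.reduce]
  rw [h, h2] at h1
  simpa using h1.symm

theorem exists_autW_of_hgt_le [Fintype ι] (α : MulAut (FreeGroup ι))
    (h : hgt (fun i => α (FreeGroup.of i)) ≤ Fintype.card ι) : ∃ v : W ι, α = autW v := by
  have hnorm : ∀ i, (α (FreeGroup.of i)).norm = 1 := by
    have h1 : ∑ i, (α (FreeGroup.of i)).norm ≤ ∑ _i : ι, 1 := by simpa [hgt] using h
    have h2 : ∑ i, (α (FreeGroup.of i)).norm = ∑ _i : ι, 1 :=
      le_antisymm h1 (Finset.sum_le_sum fun i _ => one_le_norm α i)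
    intro i
    have h3 := (Finset.sum_eq_sum_iff_of_le (s := Finset.univ)
      (f := fun _ : ι => 1) (g := fun i => (α (FreeGroup.of i)).norm)
      (fun i _ => one_le_norm α i)).mp h2.symm i (Finset.mem_univ i)
    exact h3.symm
  have hex : ∀ i, ∃ x : Ltr ι, α (FreeGroup.of i) = el x := by
    intro i
    have h1 := hnorm i
    rw [FreeGroup.norm, List.length_eq_one_iff] at h1
    obtain ⟨x, hx⟩ := h1
    refine ⟨x, ?_⟩
    rw [el, ← hx, FreeGroup.mk_toWord]
  choose x hx using hex
  let w : Ltr ι → Ltr ι := fun z => if z.2 then x z.1 else inv (x z.1)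
  have hw : ∀ z, α (el z) = el (w z) := by
    rintro ⟨i, b⟩
    cases b
    · rw [el_false, map_inv, hx, ← el_inv]
      simp [w]
    · rw [el_true, hx]
      simp [w]
  have hinv : ∀ z, w (inv z) = inv (w z) := by
    rintro ⟨i, b⟩
    cases b <;> simp [w, inv]
  have hinj : Function.Injective w := by
    intro y z hyz
    apply el_injective
    apply α.injective
    rw [hw, hw, hyz]
  have hbij : Function.Bijective w := Finite.injective_iff_bijective.mp hinj
  let v : W ι := ⟨Equiv.ofBijective w hbij, fun z => hinv z⟩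
  refine ⟨v, aut_ext fun i => ?_⟩
  rw [← el_true, hw, autW_el]
  rfl

/-- twists as a homomorphism -/
def twHom (a : Ltr ι) : Multiplicative (Ltr ι → ℤ) →* MulAut (FreeGroup ι) where
  toFun f := tw a f.toAdd
  map_one' := tw_zero a
  map_mul' f g := tw_add a f.toAdd g.toAdd

lemma tw_mem_closure [Fintype ι] (a : Ltr ι) (f : Ltr ι → ℤ) :
    tw a f ∈ Subgroup.closure
      (Set.range (autW (ι := ι)) ∪ {α | ∃ x a, α = tv x a}) := by
  set S := Subgroup.closure (Set.range (autW (ι := ι)) ∪ {α | ∃ x a, α = tv x a}) with hS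
  have h1 : ∀ (x : Ltr ι) (k : ℤ), tw a (Pi.single x k) ∈ S := by
    intro x k
    have h2 : tw a (Pi.single x k) = (tv x a) ^ k := by
      have h3 : (Multiplicative.ofAdd (Pi.single x k : Ltr ι → ℤ)) =
          (Multiplicative.ofAdd (Pi.single x 1 : Ltr ι → ℤ)) ^ k := by
        rw [← ofAdd_zsmul]
        congr 1
        ext y
        by_cases hy : y = x
        · subst hy; simp
        · simp [hy]
      have h4 := congrArg (twHom a) h3
      rw [map_zpow] at h4
      exact h4
    rw [h2]
    apply Subgroup.zpow_mem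
    exact Subgroup.subset_closure (Or.inr ⟨x, a, rfl⟩)
  have h5 : ∀ s : Finset (Ltr ι), tw a (∑ x ∈ s, Pi.single x (f x)) ∈ S := by
    intro s
    induction s using Finset.induction_on with
    | empty => rw [Finset.sum_empty, tw_zero]; exact S.one_mem
    | insert y s hy ih =>
      rw [Finset.sum_insert hy, tw_add]
      exact S.mul_mem (h1 y (f y)) ih
  have h6 := h5 Finset.univ
  rwa [Finset.univ_sum_single] at h6

/-- Nielsen's theorem from `nielsen_min` -/
theorem nielsen_of_min [Fintype ι]
    (hmin : ∀ α : MulAut (FreeGroup ι), (∀ a A, Adm a A → hgt (fun i => α (FreeGroup.of i)) ≤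
      hgt (fun i => twc a A (α (FreeGroup.of i)))) → ∃ v : W ι, α = autW v) :
    Subgroup.closure (Set.range (autW (ι := ι)) ∪ {α | ∃ x a, α = tv x a}) = ⊤ := by
  rw [eq_top_iff]
  intro α _
  set S := Subgroup.closure (Set.range (autW (ι := ι)) ∪ {α | ∃ x a, α = tv x a}) with hS
  have key : ∀ (m : ℕ) (α : MulAut (FreeGroup ι)), hgt (fun i => α (FreeGroup.of i)) = m →
      α ∈ S := by
    intro m
    induction m using Nat.strong_induction_on with
    | _ m ih =>
      intro α hα
      by_cases h : ∀ a A, Adm a A → hgt (fun i => α (FreeGroup.of i)) ≤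
          hgt (fun i => twc a A (α (FreeGroup.of i)))
      · obtain ⟨v, hv⟩ := hmin α h
        rw [hv]
        exact Subgroup.subset_closure (Or.inl ⟨v, rfl⟩)
      · push Not at h
        obtain ⟨a, A, _, hlt⟩ := h
        have h1 : twc a A * α ∈ S := by
          apply ih _ (by rw [← hα]; exact hlt) (twc a A * α)
          rfl
        have h2 : twc a A ∈ S := tw_mem_closure a _
        have h3 : α = (twc a A)⁻¹ * (twc a A * α) := by group
        rw [h3]
        exact S.mul_mem (S.inv_mem h2) h1
  exact key _ α rfl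

end Pool.Agent.Helper51.OP
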